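import Pool.Agent.helper95.T6.SpecE

set_option autoImplicit false

namespace Pool.Agent.T6

open Finset Pool.Agent.helper3.FT Pool.Agent.T5

theorem EMI_norm_e (x : ℝ) : ‖e x‖ = 1 := by
  unfold e
  rw [show (2 * Real.pi * Complex.I * x : ℂ) = ((2 * Real.pi * x : ℝ) : ℂ) * Complex.I by
    push_cast; ring]
  exact Complex.norm_exp_ofReal_mul_I _

theorem EMI_e1 (x : ℝ) : ‖e x - 1‖ ^ 2 = 2 - 2 * Real.cos (2 * Real.pi * x) := by
  rw [Complex.sq_norm, Complex.normSq_sub, ← Complex.sq_norm, EMI_norm_e, Complex.normSq_one, map_one, mul_one, E3_e_re]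
  ring

theorem EMI_K (H : ℕ) (z : ℝ) : ‖∑ j ∈ Finset.range H, e (j * z)‖ ^ 2 * (1 - Real.cos (2 * Real.pi * z)) =
    1 - Real.cos (2 * Real.pi * (H * z)) := by
  have h2 : ∀ j : ℕ, e (j * z) = e z ^ j := by
    intro j
    unfold e
    rw [← Complex.exp_nat_mul]
    congr 1
    push_cast
    ring
  have h1 : (∑ j ∈ Finset.range H, e (j * z)) * (e z - 1) = e (H * z) - 1 := by
    rw [Finset.sum_congr rfl (fun j _ => h2 j), geom_sum_mul, ← h2]
  have h3 : ‖∑ j ∈ Finset.range H, e (j * z)‖ ^ 2 * ‖e z - 1‖ ^ 2 = ‖e (H * z) - 1‖ ^ 2 := by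
    rw [← mul_pow, ← norm_mul, h1]
  rw [EMI_e1, EMI_e1] at h3
  linear_combination h3 / 2

theorem EMI_cos (x l : ℝ) (hl : 0 < l) (hx : l / 2 < nd x) : Real.cos (2 * Real.pi * x) ≤ Real.cos (Real.pi * l) := by
  have e1 : Real.cos (2 * Real.pi * x) = Real.cos (2 * Real.pi * nd x) := by
    unfold nd
    have a1 : 2 * Real.pi * |x - round x| = |2 * Real.pi * (x - round x)| := by
      rw [abs_mul, abs_of_pos Real.two_pi_pos]
    rw [a1, Real.cos_abs]
    have a2 : 2 * Real.pi * (x - round x) = 2 * Real.pi * x - ((round x : ℤ) : ℝ) * (2 * Real.pi) := by ring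
    rw [a2, Real.cos_sub_int_mul_two_pi]
  rw [e1]
  have h1 : nd x ≤ 1 / 2 := abs_sub_round x
  have hpi := Real.pi_pos
  refine Real.cos_le_cos_of_nonneg_of_le_pi (by positivity) ?_ ?_
  · nlinarith
  · nlinarith

theorem EMI_c1 (l : ℝ) (hl : 0 < l) (hl2 : l ≤ 1 / 2) : 2 * l ^ 2 ≤ 1 - Real.cos (Real.pi * l) := by
  have hpi := Real.pi_pos
  have h1 : Real.cos (Real.pi * l) = 1 - 2 * Real.sin (Real.pi * l / 2) ^ 2 := by
    have h2 := Real.cos_two_mul (Real.pi * l / 2)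
    have h3 := Real.sin_sq_add_cos_sq (Real.pi * l / 2)
    rw [show 2 * (Real.pi * l / 2) = Real.pi * l by ring] at h2
    linarith
  have h4 : 2 / Real.pi * (Real.pi * l / 2) ≤ Real.sin (Real.pi * l / 2) :=
    Real.mul_le_sin (by positivity) (by nlinarith)
  have h5 : 2 / Real.pi * (Real.pi * l / 2) = l := by
    field_simp
  rw [h5] at h4
  rw [h1]
  nlinarith

theorem EMI_c2 (l : ℝ) : 1 - Real.cos (Real.pi * l) ≤ 5 * l ^ 2 := by
  have h1 := Real.one_sub_sq_div_two_le_cos (x := Real.pi * l)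
  have h2 : Real.pi ^ 2 ≤ 10 := by
    nlinarith [Real.pi_lt_d2, Real.pi_pos]
  have h3 : (Real.pi * l) ^ 2 = Real.pi ^ 2 * l ^ 2 := by ring
  nlinarith [sq_nonneg l]

theorem EMI_fib {α : Type} [DecidableEq α] (A : Finset α) (f : α → ℤ) (n M : ℕ) (g : ℕ → ℝ) (hg : ∀ j, 0 ≤ g j)
    (hf : ∀ a ∈ A, f a ≠ 0 ∧ (f a).natAbs < n) (hM : ∀ h : ℤ, (A.filter (fun a => f a = h)).card ≤ M) :
    ∑ a ∈ A, g (f a).natAbs ≤ 2 * M * ∑ j ∈ Ico 1 n, g j := by
  have hm : ∀ a ∈ A, (f a).natAbs ∈ Ico 1 n := by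
    intro a ha
    have := hf a ha
    rw [Finset.mem_Ico]
    omega
  rw [← Finset.sum_fiberwise_of_maps_to hm (fun a => g (f a).natAbs), Finset.mul_sum]
  refine Finset.sum_le_sum fun j _ => ?_
  have h1 : ∑ a ∈ A.filter (fun a => (f a).natAbs = j), g (f a).natAbs =
      ((A.filter (fun a => (f a).natAbs = j)).card : ℝ) * g j := by
    rw [Finset.sum_congr rfl (fun a ha => by rw [(Finset.mem_filter.1 ha).2]), Finset.sum_const, nsmul_eq_mul]
  rw [h1]
  refine mul_le_mul_of_nonneg_right ?_ (hg j)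
  have h2 : A.filter (fun a => (f a).natAbs = j) ⊆ A.filter (fun a => f a = (j : ℤ)) ∪ A.filter (fun a => f a = -(j : ℤ)) := by
    intro a ha
    rw [Finset.mem_filter] at ha
    rw [Finset.mem_union, Finset.mem_filter, Finset.mem_filter]
    have := ha.2
    rcases Int.natAbs_eq (f a) with h | h
    · left
      exact ⟨ha.1, by omega⟩
    · right
      exact ⟨ha.1, by omega⟩
  have h3 := (Finset.card_le_card h2).trans (Finset.card_union_le _ _)
  have h4 := hM (j : ℤ)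
  have h5 := hM (-(j : ℤ))
  have h6 : (A.filter (fun a => (f a).natAbs = j)).card ≤ 2 * M := by omega
  exact_mod_cast h6

theorem EMI_split {α : Type} [DecidableEq α] (A : Finset α) (f : α → ℤ) (n M : ℕ) (S : ℤ → ℂ) (g : ℕ → ℝ)
    (hg : ∀ j, 0 ≤ g j) (hS : ∀ h, ‖S h‖ = g h.natAbs) (hf : ∀ a ∈ A, (f a).natAbs < n)
    (hM : ∀ h : ℤ, (A.filter (fun a => f a = h)).card ≤ M) :
    ‖∑ a ∈ A, S (f a) - ((A.filter (fun a => f a = 0)).card : ℂ) * S 0‖ ≤ 2 * M * ∑ j ∈ Ico 1 n, g j := by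
  have h1 : ∑ a ∈ A, S (f a) - ((A.filter (fun a => f a = 0)).card : ℂ) * S 0 = ∑ a ∈ A.filter (fun a => ¬ f a = 0), S (f a) := by
    rw [← Finset.sum_filter_add_sum_filter_not A (fun a => f a = 0)]
    rw [Finset.sum_congr rfl (fun a ha => by rw [(Finset.mem_filter.1 ha).2] : ∀ a ∈ A.filter (fun a => f a = 0), S (f a) = S 0),
      Finset.sum_const, nsmul_eq_mul]
    ring
  rw [h1]
  refine (norm_sum_le _ _).trans ?_
  rw [Finset.sum_congr rfl (fun a _ => hS (f a))]
  refine EMI_fib _ f n M g hg ?_ ?_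
  · intro a ha
    rw [Finset.mem_filter] at ha
    exact ⟨ha.2, hf a ha.1⟩
  · intro h
    refine le_trans (Finset.card_le_card ?_) (hM h)
    exact Finset.filter_subset_filter _ (Finset.filter_subset _ _)

theorem EMI_sq (H : ℕ) (z : ℝ) :
    ((‖∑ j ∈ Finset.range H, e (j * z)‖ : ℝ) : ℂ) ^ 2 =
      ∑ p ∈ Finset.range H ×ˢ Finset.range H, e (((p.1 : ℤ) - p.2 : ℤ) * z) := by
  rw [← Complex.mul_conj', map_sum, Finset.sum_mul_sum, Finset.sum_product]
  refine Finset.sum_congr rfl (fun a _ => Finset.sum_congr rfl (fun b _ => ?_))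
  rw [E3_e_neg_conj, ← E3_e_add]
  congr 1; push_cast; ring

/-- frequency of a quadruple -/
def EMI_f (q : (ℕ × ℕ) × (ℕ × ℕ)) : ℤ := ((q.1.1 : ℤ) - q.1.2) + ((q.2.1 : ℤ) - q.2.2)

theorem EMI_energy (H : ℕ) : (H : ℝ) ^ 3 / 2 ≤
    ((((Finset.range H ×ˢ Finset.range H) ×ˢ (Finset.range H ×ˢ Finset.range H)).filter (fun q => EMI_f q = 0)).card : ℝ) := by
  have h1 := Finset.card_sq_le_card_mul_addEnergy (Finset.range H) (Finset.range H) (Finset.range (2 * H))
  have h2 : (Finset.range H ×ˢ Finset.range H).filter (fun xy => xy.1 + xy.2 ∈ Finset.range (2 * H)) =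
      Finset.range H ×ˢ Finset.range H := by
    rw [Finset.filter_eq_self]
    rintro ⟨a, b⟩ h
    simp only [Finset.mem_product, Finset.mem_range] at h ⊢
    omega
  have h3 : Finset.addEnergy (Finset.range H) (Finset.range H) =
      (((Finset.range H ×ˢ Finset.range H) ×ˢ (Finset.range H ×ˢ Finset.range H)).filter (fun q => EMI_f q = 0)).card := by
    unfold Finset.addEnergy
    congr 1
    apply Finset.filter_congr
    rintro ⟨⟨a, b⟩, ⟨c, d⟩⟩ _
    simp only [EMI_f]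
    omega
  rw [h2, h3, Finset.card_product, Finset.card_range, Finset.card_range] at h1
  set N := (((Finset.range H ×ˢ Finset.range H) ×ˢ (Finset.range H ×ˢ Finset.range H)).filter (fun q => EMI_f q = 0)).card
  rcases Nat.eq_zero_or_pos H with h | h
  · subst h
    simp
  · have h4 : ((H : ℝ) * H) ^ 2 ≤ 2 * H * N := by exact_mod_cast h1
    have h5 : (0 : ℝ) < H := by exact_mod_cast h
    have h6 : (H : ℝ) * (H ^ 3 / 2) ≤ H * N := by nlinarith
    exact le_of_mul_le_mul_left h6 h5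

theorem EMI : EMI_stmt := by
  classical
  intro ι s w x T l hl hl2 hTl hw
  set H : ℕ := T / 2 with hH
  have hH2 : 2 * H ≤ T := by omega
  have hHT : T ≤ 2 * H + 1 := by omega
  have hHr : (T : ℝ) ≤ 2 * H + 1 := by exact_mod_cast hHT
  have hHr2 : 2 * (H : ℝ) ≤ T := by exact_mod_cast hH2
  have hHl : 2 ≤ H * l := by nlinarith
  have hH0 : (0 : ℝ) < H := by
    by_contra h
    push Not at h
    nlinarith
  have hT0 : (0 : ℝ) < T := by linarith
  set S : ℤ → ℂ := fun h => ∑ i ∈ s, (w i : ℂ) * e (h * x i) with hSdef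
  set g : ℕ → ℝ := fun j => ‖∑ i ∈ s, (w i : ℂ) * e (j * x i)‖ with hg
  have hg0 : ∀ j, 0 ≤ g j := fun j => norm_nonneg _
  have hS : ∀ j : ℤ, ‖S j‖ = g j.natAbs := by
    intro j
    rcases Int.natAbs_eq j with h | h
    · simp only [hg, hSdef]; rw [h]; simp
    · simp only [hg, hSdef]
      rw [← Complex.norm_conj, map_sum]
      refine congrArg _ (Finset.sum_congr rfl (fun i _ => ?_))
      rw [map_mul, Complex.conj_ofReal, E3_e_neg_conj]
      refine congrArg _ (congrArg _ ?_)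
      rw [h]; push_cast; simp
  set W : ℝ := ∑ i ∈ s, w i with hW
  have hW0 : 0 ≤ W := Finset.sum_nonneg hw
  have hS0 : S 0 = (W : ℂ) := by
    simp only [hSdef, hW]
    push_cast
    refine Finset.sum_congr rfl fun i _ => ?_
    have := E3_e_intCast 0
    simp only [Int.cast_zero] at this
    rw [zero_mul, this, mul_one]
  set E : ℝ := ∑ j ∈ Ico 1 (2 * H), g j with hE
  have hE0 : 0 ≤ E := Finset.sum_nonneg fun j _ => hg0 j
  set D : ι → ℂ := fun i => ∑ j ∈ Finset.range H, e (j * x i) with hD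
  set P : Finset (ℕ × ℕ) := Finset.range H ×ˢ Finset.range H with hP
  have hPm : ∀ p ∈ P, p.1 < H ∧ p.2 < H := by
    rintro ⟨a, b⟩ h
    simpa only [hP, Finset.mem_product, Finset.mem_range] using h
  -- the fourth powers
  have R1 : (H : ℝ) ^ 3 / 2 * W - 2 * H ^ 3 * E ≤ ∑ i ∈ s, w i * (‖D i‖ ^ 2) ^ 2 := by
    have c1 : ((∑ i ∈ s, w i * (‖D i‖ ^ 2) ^ 2 : ℝ) : ℂ) = ∑ q ∈ P ×ˢ P, S (EMI_f q) := by
      simp only [hSdef]
      rw [Finset.sum_comm]
      push_cast
      refine Finset.sum_congr rfl fun i _ => ?_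
      rw [← Finset.mul_sum]
      congr 1
      simp only [hD]
      rw [EMI_sq, sq, Finset.sum_mul_sum, Finset.sum_product (s := Finset.range H ×ˢ Finset.range H) (t := Finset.range H ×ˢ Finset.range H)]
      refine Finset.sum_congr rfl (fun a _ => Finset.sum_congr rfl (fun b _ => ?_))
      rw [← E3_e_add]
      unfold EMI_f
      congr 1; push_cast; ring
    have c2 := EMI_split (P ×ˢ P) EMI_f (2 * H) (H ^ 3) S g hg0 hS (by
      rintro ⟨p, q⟩ h
      rw [Finset.mem_product] at h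
      have h1 := hPm _ h.1
      have h2 := hPm _ h.2
      simp only at h1 h2
      unfold EMI_f
      simp only
      omega) (by
      intro h
      have h1 : ((P ×ˢ P).filter (fun q => EMI_f q = h)).card ≤ (P ×ˢ Finset.range H).card := by
        apply Finset.card_le_card_of_injOn (fun q => (q.1, q.2.1))
        · rintro ⟨p, q⟩ hq
          rw [Finset.mem_coe, Finset.mem_filter, Finset.mem_product] at hq
          rw [Finset.mem_coe, Finset.mem_product, Finset.mem_range]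
          exact ⟨hq.1.1, (hPm _ hq.1.2).1⟩
        · rintro ⟨p, q⟩ hq ⟨p', q'⟩ hq' hh
          rw [Finset.mem_coe, Finset.mem_filter] at hq hq'
          simp only [Prod.mk.injEq] at hh
          have h2 := hq.2
          have h3 := hq'.2
          unfold EMI_f at h2 h3
          simp only at h2 h3
          obtain ⟨h4, h5⟩ := hh
          rw [← h4] at h3
          have h6 : q.2 = q'.2 := by omega
          rw [h4, Prod.ext h5 h6]
      refine h1.trans (le_of_eq ?_)
      rw [Finset.card_product, hP, Finset.card_product, Finset.card_range]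
      ring)
    rw [← c1, hS0] at c2
    have c3 := EMI_energy H
    set N := (((Finset.range H ×ˢ Finset.range H) ×ˢ (Finset.range H ×ˢ Finset.range H)).filter (fun q => EMI_f q = 0)).card
    have c4 : ‖((∑ i ∈ s, w i * (‖D i‖ ^ 2) ^ 2 - N * W : ℝ) : ℂ)‖ ≤ 2 * ((H ^ 3 : ℕ) : ℝ) * ∑ j ∈ Ico 1 (2 * H), g j := by
      refine le_trans (le_of_eq ?_) c2
      push_cast
      rfl
    rw [Complex.norm_real, Real.norm_eq_abs] at c4
    have c5 := (abs_le.1 c4).1
    push_cast at c5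
    have c6 := mul_le_mul_of_nonneg_right c3 hW0
    linarith
  -- the second term
  have R2 : ∑ i ∈ s, w i * (‖D i‖ ^ 2 * (1 - Real.cos (2 * Real.pi * (H * x i)))) ≤ H * W + 4 * H * E := by
    have hfib : ∀ t h : ℤ, (P.filter (fun p => ((p.1 : ℤ) - p.2) + t = h)).card ≤ H := by
      intro t h
      have h1 : (P.filter (fun p => ((p.1 : ℤ) - p.2) + t = h)).card ≤ (Finset.range H).card := by
        apply Finset.card_le_card_of_injOn (fun p => p.1)
        · intro p hp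
          rw [Finset.mem_coe, Finset.mem_filter] at hp
          rw [Finset.mem_coe, Finset.mem_range]
          exact (hPm _ hp.1).1
        · intro p hp p' hp' hh
          rw [Finset.mem_coe, Finset.mem_filter] at hp hp'
          simp only at hh
          have h2 := hp.2
          have h3 := hp'.2
          exact Prod.ext hh (by omega)
      rwa [Finset.card_range] at h1
    have d1 := EMI_split P (fun p => ((p.1 : ℤ) - p.2) + 0) (2 * H) H S g hg0 hS (by
      intro p hp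
      have := hPm p hp
      omega) (hfib 0)
    have d2 := EMI_split P (fun p => ((p.1 : ℤ) - p.2) + (H : ℤ)) (2 * H) H S g hg0 hS (by
      intro p hp
      have := hPm p hp
      omega) (hfib H)
    have d3 : P.filter (fun p => ((p.1 : ℤ) - p.2) + (H : ℤ) = 0) = ∅ := by
      rw [Finset.filter_eq_empty_iff]
      intro p hp
      have := hPm p hp
      omega
    rw [d3, Finset.card_empty, Nat.cast_zero, zero_mul, sub_zero] at d2
    have d4 : ‖((P.filter (fun p => ((p.1 : ℤ) - p.2) + 0 = 0)).card : ℂ) * S 0‖ ≤ H * W := by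
      rw [norm_mul, Complex.norm_natCast, hS0, Complex.norm_real, Real.norm_of_nonneg hW0]
      refine mul_le_mul_of_nonneg_right ?_ hW0
      exact_mod_cast hfib 0 0
    have d5 : ‖∑ p ∈ P, S (((p.1 : ℤ) - p.2) + 0)‖ ≤ H * W + 2 * H * E := by
      have h1 := norm_add_le (∑ p ∈ P, S (((p.1 : ℤ) - p.2) + 0) -
        ((P.filter (fun p => ((p.1 : ℤ) - p.2) + 0 = 0)).card : ℂ) * S 0) (((P.filter (fun p => ((p.1 : ℤ) - p.2) + 0 = 0)).card : ℂ) * S 0)
      rw [sub_add_cancel] at h1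
      linarith
    have d6 : ((∑ i ∈ s, w i * (‖D i‖ ^ 2 * (1 - Real.cos (2 * Real.pi * (H * x i)))) : ℝ)) =
        (∑ p ∈ P, S (((p.1 : ℤ) - p.2) + 0) - ∑ p ∈ P, S (((p.1 : ℤ) - p.2) + (H : ℤ))).re := by
      have h1 : ∑ p ∈ P, S (((p.1 : ℤ) - p.2) + 0) - ∑ p ∈ P, S (((p.1 : ℤ) - p.2) + (H : ℤ)) =
          ∑ i ∈ s, (((w i * ‖D i‖ ^ 2 : ℝ) : ℂ) * (1 - e (H * x i))) := by
        simp only [hSdef]
        rw [Finset.sum_comm, Finset.sum_comm (s := P), ← Finset.sum_sub_distrib]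
        refine Finset.sum_congr rfl fun i _ => ?_
        rw [← Finset.mul_sum, ← Finset.mul_sum]
        push_cast
        simp only [hD]
        rw [EMI_sq, mul_assoc, ← mul_sub]
        congr 1
        rw [mul_sub, mul_one, Finset.sum_mul]
        congr 1
        · refine Finset.sum_congr rfl fun p _ => ?_
          rw [add_zero]
          push_cast
          rfl
        · refine Finset.sum_congr rfl fun p _ => ?_
          rw [← E3_e_add]
          congr 1; push_cast; ring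
      rw [h1, Complex.re_sum]
      refine Finset.sum_congr rfl fun i _ => ?_
      rw [Complex.re_ofReal_mul, Complex.sub_re, Complex.one_re, E3_e_re]
      ring
    rw [d6]
    refine (Complex.re_le_norm _).trans ((norm_sub_le _ _).trans ?_)
    linarith
  -- the minorant
  set c : ℝ := Real.cos (Real.pi * l) with hc
  have hc1 := EMI_c1 l hl hl2
  have hc2 := EMI_c2 l
  rw [← hc] at hc1 hc2
  have hDle : ∀ i, ‖D i‖ ^ 2 ≤ (H : ℝ) ^ 2 := by
    intro i
    have : ‖D i‖ ≤ H := by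
      refine (norm_sum_le _ _).trans ?_
      have h1 : ∀ j ∈ Finset.range H, ‖e (j * x i)‖ = 1 := fun j _ => EMI_norm_e _
      rw [Finset.sum_congr rfl h1, Finset.sum_const, Finset.card_range, nsmul_eq_mul, mul_one]
    exact pow_le_pow_left₀ (norm_nonneg _) this 2
  set A : ℝ := ∑ i ∈ s.filter (fun i => nd (x i) ≤ l / 2), w i with hA
  have hA0 : 0 ≤ A := Finset.sum_nonneg fun i hi => hw i (Finset.mem_filter.1 hi).1
  have M1 : (1 - c) * (∑ i ∈ s, w i * (‖D i‖ ^ 2) ^ 2) -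
      ∑ i ∈ s, w i * (‖D i‖ ^ 2 * (1 - Real.cos (2 * Real.pi * (H * x i)))) ≤ (1 - c) * (H : ℝ) ^ 4 * A := by
    rw [Finset.mul_sum, ← Finset.sum_sub_distrib, hA, Finset.sum_filter, Finset.mul_sum]
    refine Finset.sum_le_sum fun i hi => ?_
    have hK := EMI_K H (x i)
    have hDi : ‖∑ j ∈ Finset.range H, e (j * x i)‖ = ‖D i‖ := rfl
    rw [hDi] at hK
    rw [← hK]
    have e1 : (1 - c) * (w i * (‖D i‖ ^ 2) ^ 2) - w i * (‖D i‖ ^ 2 * (‖D i‖ ^ 2 * (1 - Real.cos (2 * Real.pi * x i)))) =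
        w i * ((‖D i‖ ^ 2) ^ 2 * (Real.cos (2 * Real.pi * x i) - c)) := by ring
    rw [e1]
    have hwi := hw i hi
    split_ifs with h
    · have h1 : (‖D i‖ ^ 2) ^ 2 ≤ (H : ℝ) ^ 4 := by
        have := pow_le_pow_left₀ (by positivity) (hDle i) 2
        calc (‖D i‖ ^ 2) ^ 2 ≤ ((H : ℝ) ^ 2) ^ 2 := this
          _ = (H : ℝ) ^ 4 := by ring
      have h2 : Real.cos (2 * Real.pi * x i) - c ≤ 1 - c := by
        linarith [Real.cos_le_one (2 * Real.pi * x i)]
      have h3 : 0 ≤ 1 - c := by nlinarith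
      have h4 : (‖D i‖ ^ 2) ^ 2 * (Real.cos (2 * Real.pi * x i) - c) ≤ (H : ℝ) ^ 4 * (1 - c) :=
        (mul_le_mul_of_nonneg_left h2 (by positivity)).trans (mul_le_mul_of_nonneg_right h1 h3)
      have h5 := mul_le_mul_of_nonneg_left h4 hwi
      linarith
    · push Not at h
      have h1 := EMI_cos (x i) l hl h
      rw [← hc] at h1
      have h2 : (‖D i‖ ^ 2) ^ 2 * (Real.cos (2 * Real.pi * x i) - c) ≤ 0 :=
        mul_nonpos_of_nonneg_of_nonpos (by positivity) (by linarith)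
      have h5 := mul_le_mul_of_nonneg_left h2 hwi
      linarith
  -- conclusion
  have hH3 : (0 : ℝ) < H ^ 3 := by positivity
  have F1 : 2 * l ^ 2 * ((H : ℝ) ^ 3 / 2 * W) ≤ (1 - c) * ((H : ℝ) ^ 3 / 2 * W) :=
    mul_le_mul_of_nonneg_right hc1 (by positivity)
  have F2 : (1 - c) * (2 * H ^ 3 * E) ≤ 5 * l ^ 2 * (2 * H ^ 3 * E) :=
    mul_le_mul_of_nonneg_right hc2 (by positivity)
  have F3 : (1 - c) * ((H : ℝ) ^ 3 / 2 * W - 2 * H ^ 3 * E) ≤ (1 - c) * (∑ i ∈ s, w i * (‖D i‖ ^ 2) ^ 2) :=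
    mul_le_mul_of_nonneg_left R1 (by nlinarith)
  have F4 : (1 - c) * (H : ℝ) ^ 4 * A ≤ 5 * l ^ 2 * ((H : ℝ) ^ 4 * A) := by
    have := mul_le_mul_of_nonneg_right hc2 (by positivity : 0 ≤ (H : ℝ) ^ 4 * A)
    linarith
  have F5 : (H : ℝ) ≤ l ^ 2 * H ^ 3 / 4 := by
    have h1 : 4 ≤ (H * l) ^ 2 := by nlinarith
    have h2 : (H : ℝ) * 4 ≤ H * (H * l) ^ 2 := mul_le_mul_of_nonneg_left h1 hH0.le
    nlinarith
  have F6 : (H : ℝ) * W ≤ l ^ 2 * H ^ 3 / 4 * W := mul_le_mul_of_nonneg_right F5 hW0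
  have F7 : (H : ℝ) * E ≤ l ^ 2 * H ^ 3 / 4 * E := mul_le_mul_of_nonneg_right F5 hE0
  have F8 : (l ^ 2 * H ^ 3) * (3 / 4 * W) ≤ (l ^ 2 * H ^ 3) * (5 * H * A + 11 * E) := by
    linarith only [F1, F2, F3, F4, M1, R2, F6, F7]
  have F9 : 3 / 4 * W ≤ 5 * H * A + 11 * E := le_of_mul_le_mul_left F8 (by positivity)
  have F10 : E ≤ ∑ h ∈ Ico 1 T, ‖∑ i ∈ s, (w i : ℂ) * e (h * x i)‖ := by
    rw [hE]
    refine Finset.sum_le_sum_of_subset_of_nonneg ?_ (fun j _ _ => norm_nonneg _)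
    exact Finset.Ico_subset_Ico le_rfl hH2
  set E' := ∑ h ∈ Ico 1 T, ‖∑ i ∈ s, (w i : ℂ) * e (h * x i)‖ with hE'
  have F11 : W ≤ 4 * T * A + 28 * E' := by
    have h1 : (H : ℝ) * A ≤ T / 2 * A := mul_le_mul_of_nonneg_right (by linarith) hA0
    have h2 := mul_nonneg hT0.le hA0
    have h3 : 0 ≤ E' := hE0.trans F10
    linarith only [F9, F10, h1, h2, h3, hE0]
  have F12 : 1 / (4 * (T : ℝ)) * W ≤ 1 / (4 * (T : ℝ)) * (4 * T * A + 28 * E') :=
    mul_le_mul_of_nonneg_left F11 (by positivity)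
  refine F12.trans (le_of_eq ?_)
  field_simp
  ring

end Pool.Agent.T6
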