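import Pool.Agent.helper82.T6.SpecL

set_option autoImplicit false

namespace Pool.Agent.T6

open Finset Pool.Agent.helper3.FT

/-- the rational vector of an integer vector -/
def GR_cast : (Fin 4 → ℤ) →ₗ[ℤ] (Fin 4 → ℚ) where
  toFun v := fun k => (v k : ℚ)
  map_add' v w := by
    ext k
    simp
  map_smul' c v := by
    ext k
    simp

theorem GR_cast_apply (v : Fin 4 → ℤ) (k : Fin 4) : GR_cast v k = (v k : ℚ) := rfl

theorem GR_fun (F : Finset (Fin 4 → ℤ))
    (h : ∀ w : Fin 4 → Fin 4 → ℤ, (∀ i, w i ∈ F) → ¬ LinearIndependent ℤ w) :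
    ∃ a : Fin 4 → ℚ, a ≠ 0 ∧ ∀ v ∈ F, ∑ k, a k * (v k : ℚ) = 0 := by
  classical
  set s : Set (Fin 4 → ℚ) := GR_cast '' (F : Set (Fin 4 → ℤ)) with hs
  have hlt : Submodule.span ℚ s < ⊤ := by
    rw [lt_top_iff_ne_top]
    intro htop
    obtain ⟨b, hbs, hspan, hli⟩ := exists_linearIndependent ℚ s
    rw [htop] at hspan
    have hbfin : b.Finite := hli.setFinite
    have := hbfin.fintype
    have hcard : Fintype.card b = 4 := by
      have h1 : Module.finrank ℚ (Submodule.span ℚ (Set.range ((↑) : b → (Fin 4 → ℚ)))) = Fintype.card b :=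
        finrank_span_eq_card hli
      rw [Subtype.range_coe, hspan, finrank_top] at h1
      rw [← h1]
      simp
    have e : Fin 4 ≃ b := (Fintype.equivFinOfCardEq hcard).symm
    have hch : ∀ i : Fin 4, ∃ v ∈ F, GR_cast v = (e i : Fin 4 → ℚ) := by
      intro i
      obtain ⟨v, hv, h1⟩ := hbs (e i).2
      exact ⟨v, hv, h1⟩
    choose w hw hwe using hch
    refine h w hw ?_
    have h1 : LinearIndependent ℚ (fun i => GR_cast (w i)) := by
      have h2 := hli.comp e e.injective
      have h3 : (fun i => GR_cast (w i)) = ((↑) : b → (Fin 4 → ℚ)) ∘ e := funext hwe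
      rw [h3]
      exact h2
    have h4 : LinearIndependent ℤ (fun i => GR_cast (w i)) := by
      refine h1.restrict_scalars ?_
      intro x y hxy
      simpa using hxy
    exact LinearIndependent.of_comp GR_cast h4
  obtain ⟨f, hf, hle⟩ := Submodule.exists_le_ker_of_lt_top _ hlt
  refine ⟨fun k => f (Pi.single k 1), fun h0 => hf ?_, fun v hv => ?_⟩
  · apply LinearMap.pi_ext'
    intro k
    ext
    have h1 := congrFun h0 k
    simpa using h1
  · have h1 : f (GR_cast v) = 0 := hle (Submodule.subset_span ⟨v, hv, rfl⟩)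
    have h2 : GR_cast v = ∑ k, (v k : ℚ) • (Pi.single k 1 : Fin 4 → ℚ) := by
      ext j
      rw [Finset.sum_apply]
      simp [Pi.single_apply, GR_cast_apply]
    rw [h2, map_sum] at h1
    rw [← h1]
    refine Finset.sum_congr rfl fun k _ => ?_
    rw [map_smul, smul_eq_mul, mul_comm]

theorem GR : GR_stmt := by
  classical
  intro S V lam F hS hlam hV hb hsep hli
  obtain ⟨a, ha0, ha⟩ := GR_fun F hli
  obtain ⟨k₀, -, hk₀⟩ := Finset.exists_max_image (Finset.univ : Finset (Fin 4))
    (fun k => |(a k : ℝ)| * S k) ⟨0, Finset.mem_univ _⟩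
  have hpos : 0 < |(a k₀ : ℝ)| * S k₀ := by
    obtain ⟨k, hk⟩ := Function.ne_iff.1 ha0
    have h1 : (0 : ℝ) < |(a k : ℝ)| * S k := by
      refine mul_pos (abs_pos.2 ?_) (hS k)
      have h2 : a k ≠ 0 := hk
      exact_mod_cast h2
    exact h1.trans_le (hk₀ k (Finset.mem_univ _))
  have hk₀' : 0 < |(a k₀ : ℝ)| := by
    rcases (abs_nonneg (a k₀ : ℝ)).lt_or_eq with h1 | h1
    · exact h1
    · rw [← h1, zero_mul] at hpos
      exact absurd hpos (lt_irrefl _)
  -- the separation in a coordinate different from `k₀`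
  have key : ∀ v ∈ F, ∀ v' ∈ F, v ≠ v' → ∃ k, k ≠ k₀ ∧ lam / 3 * S k ≤ |((v k - v' k : ℤ) : ℝ)| := by
    intro v hv v' hv' hne
    by_contra hcon
    push Not at hcon
    obtain ⟨k, hk⟩ := hsep v hv v' hv' hne
    have hkk : k = k₀ := by
      by_contra h1
      have h2 := hcon k h1
      have h3 : 0 < lam * S k := mul_pos hlam (hS k)
      linarith
    subst hkk
    have hz : ∑ j, (a j : ℝ) * ((v j - v' j : ℤ) : ℝ) = 0 := by
      have h1 : ∑ j, (a j : ℝ) * (v j : ℝ) = 0 := by exact_mod_cast ha v hv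
      have h2 : ∑ j, (a j : ℝ) * (v' j : ℝ) = 0 := by exact_mod_cast ha v' hv'
      have h3 : ∑ j, (a j : ℝ) * ((v j - v' j : ℤ) : ℝ) =
          ∑ j, (a j : ℝ) * (v j : ℝ) - ∑ j, (a j : ℝ) * (v' j : ℝ) := by
        rw [← Finset.sum_sub_distrib]
        refine Finset.sum_congr rfl fun j _ => ?_
        push_cast
        ring
      rw [h3, h1, h2, sub_zero]
    have h4 : (a k : ℝ) * ((v k - v' k : ℤ) : ℝ) =
        - ∑ j ∈ Finset.univ.erase k, (a j : ℝ) * ((v j - v' j : ℤ) : ℝ) := by
      rw [← Finset.add_sum_erase _ _ (Finset.mem_univ k)] at hz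
      linarith
    have h5 : |(a k : ℝ)| * |((v k - v' k : ℤ) : ℝ)| ≤
        ∑ j ∈ Finset.univ.erase k, |(a j : ℝ)| * |((v j - v' j : ℤ) : ℝ)| := by
      rw [← abs_mul, h4, abs_neg]
      refine (Finset.abs_sum_le_sum_abs _ _).trans (le_of_eq ?_)
      exact Finset.sum_congr rfl fun j _ => abs_mul _ _
    have h6 : ∑ j ∈ Finset.univ.erase k, |(a j : ℝ)| * |((v j - v' j : ℤ) : ℝ)| <
        ∑ j ∈ Finset.univ.erase k, (|(a k : ℝ)| * S k) * (lam / 3) := by
      have hl3 : 0 < lam / 3 := by linarith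
      refine Finset.sum_lt_sum_of_nonempty ?_ fun j hj => ?_
      · rw [← Finset.card_pos, Finset.card_erase_of_mem (Finset.mem_univ k)]
        simp
      · have hjk : j ≠ k := (Finset.mem_erase.1 hj).1
        have h7 := hcon j hjk
        have h8 := hk₀ j (Finset.mem_univ _)
        rcases (abs_nonneg (a j : ℝ)).lt_or_eq with h9 | h9
        · calc |(a j : ℝ)| * |((v j - v' j : ℤ) : ℝ)| < |(a j : ℝ)| * (lam / 3 * S j) :=
                mul_lt_mul_of_pos_left h7 h9
            _ = (|(a j : ℝ)| * S j) * (lam / 3) := by ring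
            _ ≤ (|(a k : ℝ)| * S k) * (lam / 3) := mul_le_mul_of_nonneg_right h8 hl3.le
        · rw [← h9, zero_mul]
          exact mul_pos hpos hl3
    have h7 : ∑ j ∈ Finset.univ.erase k, (|(a k : ℝ)| * S k) * (lam / 3) =
        (|(a k : ℝ)| * S k) * lam := by
      rw [Finset.sum_const, Finset.card_erase_of_mem (Finset.mem_univ k)]
      simp
      ring
    have h8 : |(a k : ℝ)| * (lam * S k) ≤ |(a k : ℝ)| * |((v k - v' k : ℤ) : ℝ)| :=
      mul_le_mul_of_nonneg_left hk (abs_nonneg _)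
    nlinarith
  -- the map to a small box
  set n : ℕ := ⌊6 * V / lam⌋₊ with hn
  have hcard : F.card ≤ (Fintype.piFinset (fun _ : {k : Fin 4 // k ≠ k₀} => Finset.range (n + 1))).card := by
    refine Finset.card_le_card_of_injOn
      (fun v => fun k : {k : Fin 4 // k ≠ k₀} => ⌊3 * ((v k : ℝ) + V * S k) / (lam * S k)⌋₊) ?_ ?_
    · intro v hv
      rw [Finset.mem_coe, Fintype.mem_piFinset]
      intro k
      rw [Finset.mem_range, Nat.lt_succ_iff, hn]
      apply Nat.floor_le_floor
      have h1 := (abs_le.1 (hb v hv k)).2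
      rw [div_le_div_iff₀ (mul_pos hlam (hS k)) hlam]
      have h2 : 3 * ((v k : ℝ) + V * S k) ≤ 6 * V * S k := by linarith
      calc 3 * ((v k : ℝ) + V * S k) * lam ≤ 6 * V * S k * lam :=
            mul_le_mul_of_nonneg_right h2 hlam.le
        _ = 6 * V * (lam * S k) := by ring
    · intro v hv v' hv' he
      by_contra hne
      obtain ⟨k, hk, h1⟩ := key v hv v' hv' hne
      have h2 : ⌊3 * ((v k : ℝ) + V * S k) / (lam * S k)⌋₊ = ⌊3 * ((v' k : ℝ) + V * S k) / (lam * S k)⌋₊ :=
        congrFun he ⟨k, hk⟩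
      have hp := mul_pos hlam (hS k)
      have h3 : ∀ u ∈ F, 0 ≤ 3 * ((u k : ℝ) + V * S k) / (lam * S k) := by
        intro u hu
        refine div_nonneg ?_ hp.le
        have h4 := (abs_le.1 (hb u hu k)).1
        linarith
      have h5 : |3 * ((v k : ℝ) + V * S k) / (lam * S k) - 3 * ((v' k : ℝ) + V * S k) / (lam * S k)| < 1 := by
        have a1 := Nat.floor_le (h3 v hv)
        have a2 := Nat.lt_floor_add_one (3 * ((v k : ℝ) + V * S k) / (lam * S k))
        have a3 := Nat.floor_le (h3 v' hv')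
        have a4 := Nat.lt_floor_add_one (3 * ((v' k : ℝ) + V * S k) / (lam * S k))
        rw [h2] at a1 a2
        rw [abs_lt]
        constructor <;> linarith
      have h6 : 3 * ((v k : ℝ) + V * S k) / (lam * S k) - 3 * ((v' k : ℝ) + V * S k) / (lam * S k) =
          3 * ((v k - v' k : ℤ) : ℝ) / (lam * S k) := by
        push_cast
        ring
      rw [h6, abs_div, abs_mul, abs_of_pos hp, div_lt_one hp] at h5
      have h7 : |(3 : ℝ)| = 3 := abs_of_pos (by norm_num)
      rw [h7] at h5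
      linarith
  have hc3 : Fintype.card {k : Fin 4 // k ≠ k₀} = 3 := by
    rw [Fintype.card_subtype_compl, Fintype.card_subtype_eq]
    simp
  rw [Fintype.card_piFinset, Finset.prod_const, Finset.card_univ, hc3, Finset.card_range] at hcard
  have h9 : (F.card : ℝ) ≤ ((n : ℝ) + 1) ^ 3 := by exact_mod_cast hcard
  refine h9.trans ?_
  have h10 : (n : ℝ) ≤ 6 * V / lam := Nat.floor_le (by positivity)
  have h11 : (0 : ℝ) ≤ (n : ℝ) + 1 := by positivity
  exact pow_le_pow_left₀ h11 (by linarith) 3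

end Pool.Agent.T6
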