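import Pool.Agent.helper3.T6.SpecH

set_option autoImplicit false

namespace Pool.Agent.T6

open Finset NumberField Pool.Agent.helper3.FT Pool.Agent.helper47.RA Pool.Agent.T5
open scoped nonZeroDivisors

/-- two candidates cannot both be bad for the same unit vector -/
theorem HGEO_two (a b x y x' y' : ℝ) (hw : a ^ 2 + b ^ 2 = 1) (hv : x ^ 2 + y ^ 2 = 5)
    (hv' : x' ^ 2 + y' ^ 2 = 5) (h : 9 ≤ (x * y' - y * x') ^ 2)
    (h1 : (a * y - b * x) ^ 2 < 9 / 20) (h2 : (a * y' - b * x') ^ 2 < 9 / 20) : False := by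
  set p := a * x + b * y with hp
  set q := a * x' + b * y' with hq
  set P := a * y - b * x with hP
  set Q := a * y' - b * x' with hQ
  have e1 : p ^ 2 + P ^ 2 = 5 := by
    have : p ^ 2 + P ^ 2 = (a ^ 2 + b ^ 2) * (x ^ 2 + y ^ 2) := by rw [hp, hP]; ring
    rw [this, hw, hv, one_mul]
  have e2 : q ^ 2 + Q ^ 2 = 5 := by
    have : q ^ 2 + Q ^ 2 = (a ^ 2 + b ^ 2) * (x' ^ 2 + y' ^ 2) := by rw [hq, hQ]; ring
    rw [this, hw, hv', one_mul]
  have e3 : p * Q - P * q = x * y' - y * x' := by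
    have : p * Q - P * q = (a ^ 2 + b ^ 2) * (x * y' - y * x') := by rw [hp, hq, hP, hQ]; ring
    rw [this, hw, one_mul]
  rw [← e3] at h
  have h3 : (p * Q - P * q) ^ 2 ≤ 2 * (p ^ 2 * Q ^ 2 + P ^ 2 * q ^ 2) := by
    nlinarith [sq_nonneg (p * Q + P * q)]
  have h4 : p ^ 2 * Q ^ 2 ≤ 5 * Q ^ 2 := by
    apply mul_le_mul_of_nonneg_right _ (sq_nonneg _)
    nlinarith [sq_nonneg P]
  have h5 : P ^ 2 * q ^ 2 ≤ 5 * P ^ 2 := by
    rw [mul_comm]
    apply mul_le_mul_of_nonneg_right _ (sq_nonneg _)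
    nlinarith [sq_nonneg Q]
  linarith

theorem HGEO_dir (w : Fin 3 → ℝ × ℝ) (hw : ∀ i, (w i).1 ^ 2 + (w i).2 ^ 2 = 1) :
    ∃ x y : ℝ, x ^ 2 + y ^ 2 = 5 ∧ 1 ≤ y ∧ ∀ i, 9 / 20 ≤ ((w i).1 * y - (w i).2 * x) ^ 2 := by
  set cx : Fin 4 → ℝ := ![2, 1, -1, -2] with hcx
  set cy : Fin 4 → ℝ := ![1, 2, 2, 1] with hcy
  by_contra hcon
  push Not at hcon
  have hn : ∀ k, cx k ^ 2 + cy k ^ 2 = 5 := by
    intro k
    fin_cases k <;> norm_num [hcx, hcy]
  have h1 : ∀ k, 1 ≤ cy k := by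
    intro k
    fin_cases k <;> norm_num [hcy]
  have hex : ∀ k, ∃ i, ((w i).1 * cy k - (w i).2 * cx k) ^ 2 < 9 / 20 := fun k =>
    hcon (cx k) (cy k) (hn k) (h1 k)
  choose g hg using hex
  obtain ⟨k, k', hne, he⟩ := Fintype.exists_ne_map_eq_of_card_lt g (by simp)
  have h2 := hg k
  have h3 := hg k'
  rw [← he] at h3
  refine HGEO_two _ _ _ _ _ _ (hw (g k)) (hn k) (hn k') ?_ h2 h3
  clear h2 h3 he hg g hcon hn h1
  fin_cases k <;> fin_cases k' <;> first | exact absurd rfl hne | (norm_num [hcx, hcy])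

theorem HGEO_unit (z : ℂ) (h : ‖z‖ = 1) : z.re ^ 2 + z.im ^ 2 = 1 := by
  have h1 := Complex.sq_norm z
  rw [h, Complex.normSq_apply] at h1
  linarith

/-- the good direction -/
theorem HGEO_good (u τ : ℂ) (hu : u ≠ 0) (hτ : ‖τ‖ = 1) :
    ∃ v : ℂ, ‖v‖ = √5 ∧ 1 ≤ v.im ∧ 9 / 10 ≤ |((starRingEnd ℂ) τ * v ^ 2).im| ∧
      9 / 20 * ‖u‖ ^ 2 ≤ ((starRingEnd ℂ) u * v).im ^ 2 := by
  obtain ⟨b, hb⟩ := IsAlgClosed.exists_pow_nat_eq τ (n := 2) (by norm_num)
  have hbn : ‖b‖ = 1 := by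
    have h1 : ‖b‖ ^ 2 = 1 := by rw [← norm_pow, hb, hτ]
    have h2 : 0 ≤ ‖b‖ := norm_nonneg _
    nlinarith
  have hb1 := HGEO_unit b hbn
  have hun : 0 < ‖u‖ := norm_pos_iff.2 hu
  have hun2 : u.re ^ 2 + u.im ^ 2 = ‖u‖ ^ 2 := by
    rw [Complex.sq_norm, Complex.normSq_apply]
    ring
  obtain ⟨x, y, hxy, hy, hw⟩ := HGEO_dir ![(b.re, b.im), (-b.im, b.re), (u.re / ‖u‖, u.im / ‖u‖)] (by
    intro i
    fin_cases i
    · simpa using hb1
    · simp only [Fin.mk_one, Matrix.cons_val_one, Matrix.cons_val_zero]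
      nlinarith
    · simp only [Fin.reduceFinMk, Matrix.cons_val]
      field_simp
      exact hun2)
  have w0 := hw 0
  have w1 := hw 1
  have w2 := hw 2
  simp only [Matrix.cons_val_zero, Matrix.cons_val_one, Matrix.cons_val] at w0 w1 w2
  refine ⟨⟨x, y⟩, ?_, hy, ?_, ?_⟩
  · rw [Complex.norm_def, Complex.normSq_apply]
    congr 1
    change x * x + y * y = 5
    linarith
  · have e : ((starRingEnd ℂ) τ * (⟨x, y⟩ : ℂ) ^ 2).im = 2 * (b.re * x + b.im * y) * (b.re * y - b.im * x) := by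
      rw [← hb, map_pow, ← mul_pow, pow_two]
      simp only [Complex.mul_im, Complex.mul_re, Complex.conj_re, Complex.conj_im]
      ring
    rw [e]
    have h3 : 9 / 20 ≤ (b.re * x + b.im * y) ^ 2 := by
      have h4 : (-b.im * y - b.re * x) ^ 2 = (b.re * x + b.im * y) ^ 2 := by ring
      rwa [h4] at w1
    have h5 : (9 / 10 : ℝ) ^ 2 ≤ (2 * (b.re * x + b.im * y) * (b.re * y - b.im * x)) ^ 2 := by
      have h6 : (2 * (b.re * x + b.im * y) * (b.re * y - b.im * x)) ^ 2 =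
          4 * ((b.re * x + b.im * y) ^ 2 * (b.re * y - b.im * x) ^ 2) := by ring
      rw [h6]
      nlinarith
    have h7 := Real.sqrt_le_sqrt h5
    rwa [Real.sqrt_sq (by norm_num), Real.sqrt_sq_eq_abs] at h7
  · have e : ((starRingEnd ℂ) u * (⟨x, y⟩ : ℂ)).im = u.re * y - u.im * x := by
      simp only [Complex.mul_im, Complex.conj_re, Complex.conj_im]
      ring
    rw [e]
    have h3 : (u.re / ‖u‖ * y - u.im / ‖u‖ * x) ^ 2 * ‖u‖ ^ 2 = (u.re * y - u.im * x) ^ 2 := by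
      field_simp
    rw [← h3]
    exact mul_le_mul_of_nonneg_right w2 (sq_nonneg _)

theorem HGEO : HGEO_stmt := by
  intro u₁ u₂ τ R V hV hdet hτ hRV hR
  have hu : u₁ ≠ 0 := by
    rintro rfl
    simp at hdet
    linarith
  have hun : 0 < ‖u₁‖ := norm_pos_iff.2 hu
  have hR0 : 0 < R := by linarith [mul_pos (by norm_num : (0:ℝ) < 300) hun]
  obtain ⟨v, hvn, hvi, hvτ, hvu⟩ := HGEO_good u₁ τ hu hτ
  have r5 : √5 ^ 2 = (5 : ℝ) := Real.sq_sqrt (by norm_num)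
  have r5p : 0 < √(5 : ℝ) := Real.sqrt_pos.2 (by norm_num)
  have r5a : (11 / 5 : ℝ) < √5 := by
    rw [Real.lt_sqrt (by norm_num)]
    norm_num
  have r5b : √5 < (9 / 4 : ℝ) := by
    rw [Real.sqrt_lt' (by norm_num)]
    norm_num
  set σ : ℝ := |((starRingEnd ℂ) u₁ * v).im| with hσ
  have hσ2 : 9 / 20 * ‖u₁‖ ^ 2 ≤ σ ^ 2 := by
    rw [hσ, sq_abs]
    exact hvu
  have hσ0 : 0 < σ := by
    rcases (abs_nonneg ((starRingEnd ℂ) u₁ * v).im).lt_or_eq with h | h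
    · exact h
    · rw [← hσ] at h
      rw [← h] at hσ2
      nlinarith [sq_pos_of_pos hun]
  have hσle : σ ≤ ‖u₁‖ * √5 := by
    rw [hσ]
    refine (Complex.abs_im_le_norm _).trans ?_
    rw [norm_mul, RCLike.norm_conj, hvn]
  -- the power of two
  have hf : 1 ≤ R / (3 * √5) * σ / V := by
    rw [le_div_iff₀ hV, one_mul]
    have h1 : (3 * ‖u₁‖) ^ 2 ≤ (2 * √5 * σ) ^ 2 := by
      have h2 : (2 * √5 * σ) ^ 2 = 20 * σ ^ 2 := by
        rw [mul_pow, mul_pow, r5]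
        ring
      rw [h2]
      nlinarith
    have h3 : 3 * ‖u₁‖ ≤ 2 * √5 * σ := (sq_le_sq₀ (by positivity) (by positivity)).1 h1
    have h5 : R / (3 * √5) * σ = R * (2 * √5 * σ) / 30 := by
      field_simp
      nlinarith
    rw [h5, le_div_iff₀ (by norm_num)]
    have h6 : R * (3 * ‖u₁‖) ≤ R * (2 * √5 * σ) := mul_le_mul_of_nonneg_left h3 hR0.le
    nlinarith
  obtain ⟨n, hn1, hn2⟩ := exists_nat_pow_near hf (by norm_num : (1 : ℝ) < 2)
  set t : ℝ := 2 ^ (n + 1) * V / σ with ht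
  have ht0 : 0 < t := by positivity
  have htσ : t * σ = 2 ^ (n + 1) * V := by
    rw [ht]
    field_simp
  have ht1 : R < 3 * (√5 * t) := by
    rw [div_lt_iff₀ hV] at hn2
    rw [← htσ] at hn2
    have h1 : R / (3 * √5) < t := lt_of_mul_lt_mul_right hn2 hσ0.le
    rw [div_lt_iff₀ (by positivity)] at h1
    linarith
  have ht2 : 3 * (√5 * t) ≤ 2 * R := by
    rw [le_div_iff₀ hV] at hn1
    have h0 : t * σ ≤ 2 * (R / (3 * √5) * σ) := by
      rw [htσ, pow_succ]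
      linarith
    have h1 : t ≤ 2 * (R / (3 * √5)) := by
      have h2 : t * σ ≤ 2 * (R / (3 * √5)) * σ := by linarith
      exact le_of_mul_le_mul_right h2 hσ0
    have h3 : t * (3 * √5) ≤ 2 * (R / (3 * √5)) * (3 * √5) :=
      mul_le_mul_of_nonneg_right h1 (by positivity)
    have h4 : 2 * (R / (3 * √5)) * (3 * √5) = 2 * R := by field_simp
    linarith
  -- the sign
  obtain ⟨j, hj, hjV⟩ : ∃ j : ℤ, |j| = 2 ^ (n + 1) ∧
      (j : ℝ) * ((starRingEnd ℂ) u₁ * u₂).im = t * ((starRingEnd ℂ) u₁ * v).im := by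
    have h2 : |(2 : ℤ) ^ (n + 1)| = 2 ^ (n + 1) := abs_of_pos (by positivity)
    rcases abs_choice ((starRingEnd ℂ) u₁ * u₂).im with h | h <;>
      rcases abs_choice ((starRingEnd ℂ) u₁ * v).im with h' | h' <;>
      rw [h] at hdet <;> rw [← hσ] at h'
    · refine ⟨2 ^ (n + 1), h2, ?_⟩
      rw [hdet, ← h', htσ]
      push_cast
      ring
    · refine ⟨-2 ^ (n + 1), by rw [abs_neg, h2], ?_⟩
      have h3 : ((starRingEnd ℂ) u₁ * v).im = -σ := by linarith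
      rw [hdet, h3, mul_neg, htσ]
      push_cast
      ring
    · refine ⟨-2 ^ (n + 1), by rw [abs_neg, h2], ?_⟩
      have h3 : ((starRingEnd ℂ) u₁ * u₂).im = -V := by linarith
      rw [h3, ← h', htσ]
      push_cast
      ring
    · refine ⟨2 ^ (n + 1), h2, ?_⟩
      have h3 : ((starRingEnd ℂ) u₁ * u₂).im = -V := by linarith
      have h4 : ((starRingEnd ℂ) u₁ * v).im = -σ := by linarith
      rw [h3, h4, mul_neg, mul_neg, htσ]
      push_cast
      ring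
  -- the real coordinate
  set xs : ℝ := ((starRingEnd ℂ) u₁ * (t * v - j * u₂)).re / ‖u₁‖ ^ 2 with hxs
  have hline : (t : ℂ) * v - j * u₂ = xs * u₁ := by
    have him : ((starRingEnd ℂ) u₁ * (t * v - j * u₂)).im = 0 := by
      have e : (starRingEnd ℂ) u₁ * ((t : ℂ) * v - j * u₂) =
          (t : ℂ) * ((starRingEnd ℂ) u₁ * v) - ((j : ℝ) : ℂ) * ((starRingEnd ℂ) u₁ * u₂) := by
        push_cast
        ring
      rw [e, Complex.sub_im, Complex.im_ofReal_mul, Complex.im_ofReal_mul, hjV, sub_self]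
    have hw : (starRingEnd ℂ) u₁ * (t * v - j * u₂) =
        ((((starRingEnd ℂ) u₁ * (t * v - j * u₂)).re : ℝ) : ℂ) := by
      apply Complex.ext
      · rw [Complex.ofReal_re]
      · rw [Complex.ofReal_im, him]
    have hn : (starRingEnd ℂ) u₁ * u₁ = ((‖u₁‖ ^ 2 : ℝ) : ℂ) := by
      rw [mul_comm, Complex.mul_conj, Complex.normSq_eq_norm_sq]
    have hne : (starRingEnd ℂ) u₁ ≠ 0 := by
      rw [Ne, map_eq_zero]
      exact hu
    apply mul_left_cancel₀ hne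
    rw [hw, hxs, mul_left_comm, hn, ← Complex.ofReal_mul]
    congr 1
    field_simp
  have hjr : |(j : ℝ)| = 2 ^ (n + 1) := by
    rw [← Int.cast_abs, hj]
    push_cast
    rfl
  refine ⟨j, ⌈xs⌉, n + 1, hj, ?_, fun x hx hx2 => ?_⟩
  · rw [hjr, ← htσ]
    have h1 : t * σ ≤ t * (‖u₁‖ * √5) := mul_le_mul_of_nonneg_left hσle ht0.le
    have h2 : √5 * t ≤ R := by linarith
    have h3 : √5 * t * ‖u₁‖ ≤ R * ‖u₁‖ := mul_le_mul_of_nonneg_right h2 hun.le
    linarith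
  set s : ℝ := √5 * t with hs
  have hs0 : 0 < s := by positivity
  set z : ℂ := (x : ℂ) * u₁ + j * u₂ with hz
  have hzt : z - t * v = ((x : ℝ) - xs : ℝ) * u₁ := by
    have h1 : (j : ℂ) * u₂ = t * v - xs * u₁ := by rw [← hline]; ring
    rw [hz, h1]
    push_cast
    ring
  have hd : ‖z - t * v‖ ≤ s / 50 := by
    have hx' : (⌈xs⌉ : ℝ) ≤ x := by exact_mod_cast hx
    have h1 : xs ≤ ⌈xs⌉ := Int.le_ceil _
    have h2 : (⌈xs⌉ : ℝ) < xs + 1 := Int.ceil_lt_add_one _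
    rw [hzt, norm_mul, Complex.norm_real, Real.norm_eq_abs, abs_of_nonneg (by linarith)]
    have h3 : ((x : ℝ) - xs) * ‖u₁‖ ≤ (1 + ((x : ℝ) - ⌈xs⌉)) * ‖u₁‖ :=
      mul_le_mul_of_nonneg_right (by linarith) hun.le
    nlinarith
  have htv : ‖(t : ℂ) * v‖ = s := by
    rw [norm_mul, Complex.norm_real, Real.norm_eq_abs, abs_of_pos ht0, hvn, hs, mul_comm]
  have hz1 : s - s / 50 ≤ ‖z‖ := by
    have h1 : ‖(t : ℂ) * v‖ ≤ ‖z‖ + ‖z - t * v‖ := by
      have h2 : (t : ℂ) * v = z - (z - t * v) := by ring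
      calc ‖(t : ℂ) * v‖ = ‖z - (z - t * v)‖ := by rw [← h2]
        _ ≤ ‖z‖ + ‖z - t * v‖ := norm_sub_le _ _
    rw [htv] at h1
    linarith
  have hz2 : ‖z‖ ≤ s + s / 50 := by
    have h1 : ‖z‖ ≤ ‖(t : ℂ) * v‖ + ‖z - t * v‖ := by
      have h2 : z = t * v + (z - t * v) := by ring
      calc ‖z‖ = ‖t * v + (z - t * v)‖ := by rw [← h2]
        _ ≤ _ := norm_add_le _ _
    rw [htv] at h1
    linarith
  refine ⟨by linarith, by linarith, ?_, ?_⟩
  · have h1 : |(z - t * v).im| ≤ s / 50 := (Complex.abs_im_le_norm _).trans hd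
    have h2 := (abs_le.1 h1).1
    rw [Complex.sub_im, Complex.im_ofReal_mul] at h2
    have h3 : t ≤ t * v.im := le_mul_of_one_le_right ht0.le hvi
    have h4 : s ≤ 9 / 4 * t := by
      rw [hs]
      exact mul_le_mul_of_nonneg_right r5b.le ht0.le
    linarith
  · have h1 : ((starRingEnd ℂ) τ * z ^ 2).im = ((starRingEnd ℂ) τ * (t * v) ^ 2).im +
        ((starRingEnd ℂ) τ * ((z - t * v) * (z + t * v))).im := by
      rw [← Complex.add_im]
      congr 1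
      ring
    have h2 : |((starRingEnd ℂ) τ * ((z - t * v) * (z + t * v))).im| ≤ s / 50 * (s + s / 50 + s) := by
      refine (Complex.abs_im_le_norm _).trans ?_
      rw [norm_mul, RCLike.norm_conj, hτ, one_mul, norm_mul]
      refine mul_le_mul hd ?_ (norm_nonneg _) (by linarith)
      refine (norm_add_le _ _).trans ?_
      rw [htv]
      linarith
    have h3 : ((starRingEnd ℂ) τ * ((t : ℂ) * v) ^ 2).im = t ^ 2 * ((starRingEnd ℂ) τ * v ^ 2).im := by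
      have e : (starRingEnd ℂ) τ * ((t : ℂ) * v) ^ 2 = ((t ^ 2 : ℝ) : ℂ) * ((starRingEnd ℂ) τ * v ^ 2) := by
        push_cast
        ring
      rw [e, Complex.im_ofReal_mul]
    have h4 : 9 / 10 * t ^ 2 ≤ |((starRingEnd ℂ) τ * ((t : ℂ) * v) ^ 2).im| := by
      rw [h3, abs_mul, abs_of_pos (by positivity : (0:ℝ) < t ^ 2), mul_comm (9 / 10 : ℝ)]
      exact mul_le_mul_of_nonneg_left hvτ (sq_nonneg t)
    have h5 : |((starRingEnd ℂ) τ * ((t : ℂ) * v) ^ 2).im| ≤ |((starRingEnd ℂ) τ * z ^ 2).im| +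
        |((starRingEnd ℂ) τ * ((z - t * v) * (z + t * v))).im| := by
      have h6 : ((starRingEnd ℂ) τ * ((t : ℂ) * v) ^ 2).im = ((starRingEnd ℂ) τ * z ^ 2).im -
          ((starRingEnd ℂ) τ * ((z - t * v) * (z + t * v))).im := by linarith
      rw [h6]
      rw [sub_eq_add_neg]
      refine (abs_add_le _ _).trans (le_of_eq ?_)
      rw [abs_neg]
    have h6 : s ^ 2 = 5 * t ^ 2 := by
      rw [hs, mul_pow, r5]
    have h7 : ‖z‖ ^ 2 ≤ (s + s / 50) ^ 2 := pow_le_pow_left₀ (norm_nonneg _) hz2 2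
    have h8 : (s + s / 50) ^ 2 = 2601 / 2500 * s ^ 2 := by ring
    have h9 : s / 50 * (s + s / 50 + s) = 101 / 2500 * s ^ 2 := by ring
    have h10 : 0 < t ^ 2 := by positivity
    rw [h8, h6] at h7
    rw [h9, h6] at h2
    linarith

end Pool.Agent.T6
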